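import Pool.Agent.V7H47.LB.Spec

/-!
# PROJECT LB, piece NL: the numeric inequality for small inradius
-/

set_option autoImplicit false

open Real Set

namespace Pool.Agent.V7H8.LB

open Pool.Agent.V7H47.LB

/-- tangent line of tan -/
lemma tan_tangent {θ γ : ℝ} (h0 : 0 ≤ θ) (h1 : θ ≤ γ) (h2 : γ < π / 2) :
    tan θ + (γ - θ) / cos θ ^ 2 ≤ tan γ := by
  have hcθ : 0 < cos θ := cos_pos_of_mem_Ioo ⟨by linarith [pi_pos], by linarith⟩
  have hcγ : 0 < cos γ := cos_pos_of_mem_Ioo ⟨by linarith [pi_pos], by linarith⟩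
  have hx0 : 0 ≤ γ - θ := by linarith
  have hx1 : γ - θ < π / 2 := by linarith
  have hs0 : 0 ≤ sin θ := sin_nonneg_of_nonneg_of_le_pi h0 (by linarith [pi_pos])
  have hsx : 0 ≤ sin (γ - θ) := sin_nonneg_of_nonneg_of_le_pi hx0 (by linarith [pi_pos])
  have hcx : 0 < cos (γ - θ) := cos_pos_of_mem_Ioo ⟨by linarith [pi_pos], by linarith⟩
  have htan : γ - θ ≤ tan (γ - θ) := le_tan hx0 hx1
  rw [tan_eq_sin_div_cos, le_div_iff₀ hcx] at htan
  have hcγ' : cos γ = cos θ * cos (γ - θ) - sin θ * sin (γ - θ) := by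
    rw [← cos_add]; congr 1; ring
  have key : (γ - θ) * cos γ ≤ sin (γ - θ) * cos θ := by
    have h3 : cos γ ≤ cos θ * cos (γ - θ) := by
      rw [hcγ']; nlinarith [mul_nonneg hs0 hsx]
    calc (γ - θ) * cos γ ≤ (γ - θ) * (cos θ * cos (γ - θ)) := mul_le_mul_of_nonneg_left h3 hx0
      _ = ((γ - θ) * cos (γ - θ)) * cos θ := by ring
      _ ≤ sin (γ - θ) * cos θ := mul_le_mul_of_nonneg_right htan hcθ.le
  have hsγ : sin γ = (sin (γ - θ) + sin θ * cos γ) / cos θ := by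
    rw [sin_sub]; field_simp; ring
  rw [tan_eq_sin_div_cos, tan_eq_sin_div_cos, le_div_iff₀ hcγ]
  calc (sin θ / cos θ + (γ - θ) / cos θ ^ 2) * cos γ
      = ((γ - θ) * cos γ / cos θ + sin θ * cos γ) / cos θ := by field_simp; ring
    _ ≤ (sin (γ - θ) + sin θ * cos γ) / cos θ := by
        gcongr
        rw [div_le_iff₀ hcθ]; exact key
    _ = sin γ := hsγ.symm

/-- tangent line of `A sin - B cos` -/
lemma trig_tangent {A B e η : ℝ} (hΛ : 0 ≤ A * cos e + B * sin e)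
    (hM : A * cos e + B * sin e ≤ B * cos e - A * sin e)
    (hu1 : -(1 : ℝ) ≤ η - e) (hu2 : η - e ≤ 4 / 5) :
    A * sin e - B * cos e + (A * cos e + B * sin e) * (η - e) ≤ A * sin η - B * cos η := by
  set u := η - e with hu
  have hη : η = e + u := by rw [hu]; ring
  have hpi : 3 < π := pi_gt_three
  have hpi2 : π ^ 2 ≤ 10 := by
    have := pi_lt_d2
    nlinarith
  have e1 : A * sin η - B * cos η = (A * cos e + B * sin e) * sin u -
      (B * cos e - A * sin e) * cos u := by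
    rw [hη, sin_add, cos_add]; ring
  rw [e1]
  have hcos : cos u ≤ 1 - u ^ 2 / 5 := by
    have h1 := cos_le_one_sub_mul_cos_sq (x := u) (by
      rw [abs_le]; constructor <;> linarith)
    have h2 : (1 : ℝ) / 5 ≤ 2 / π ^ 2 := by
      rw [div_le_div_iff₀ (by norm_num) (by positivity)]; linarith
    nlinarith [mul_le_mul_of_nonneg_right h2 (sq_nonneg u)]
  set Λ := A * cos e + B * sin e with hΛd
  set M := B * cos e - A * sin e with hMd
  have hM0 : 0 ≤ M := le_trans hΛ hM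
  have e2 : A * sin e - B * cos e = -M := by rw [hMd]; ring
  rw [e2]
  have h3 : M * cos u ≤ M * (1 - u ^ 2 / 5) := mul_le_mul_of_nonneg_left hcos hM0
  rcases le_or_gt u 0 with hu0 | hu0
  · have h4 : u ≤ sin u := by
      have := sin_le (x := -u) (by linarith)
      rw [sin_neg] at this; linarith
    have h5 : Λ * u ≤ Λ * sin u := mul_le_mul_of_nonneg_left h4 hΛ
    have h6 : 0 ≤ M * (u ^ 2 / 5) := by positivity
    nlinarith
  · have h4 : u - u ^ 3 / 4 ≤ sin u := by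
      have h41 := (sin_gt_sub_cube hu0).le
      have h42 : 0 ≤ u ^ 3 := by positivity
      linarith
    have h5 : Λ * (u - u ^ 3 / 4) ≤ Λ * sin u := mul_le_mul_of_nonneg_left h4 hΛ
    have h6 : Λ * (u ^ 3 / 4) ≤ M * (u ^ 2 / 5) := by
      have h7 : u ^ 3 / 4 ≤ u ^ 2 / 5 := by
        have : u ^ 2 * u ≤ u ^ 2 * (4 / 5) := mul_le_mul_of_nonneg_left hu2 (sq_nonneg u)
        nlinarith
      exact mul_le_mul hM h7 (by positivity) hM0
    nlinarith

/-- the one variable inequality -/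
lemma one_var {q s w : ℝ} (hq1 : 1 / 2 ≤ q) (hq2 : q ≤ 1936 / 3064) (hs0 : 0 ≤ s)
    (hsq : s ^ 2 = 1 - q ^ 2) (hw1 : 1.73205 < w) (hw2 : w < 1.73206) :
    0 ≤ 3 * (q * s + q ^ 2 * (w / 2 * q - s / 2) - 0.936 * q * (1 + q) *
      ((w / 2 - 3 / 160) * (q / 2 + w / 2 * s) + w / 4 + 3 / 160)) + 0.7776 * (1 + q) ^ 2 +
      (3 * 0.936 / 4) * q * (1 + q) * s * (w ^ 2 - 3) := by
  have hs1 : s ≤ 0.87 := by
    by_contra h
    push Not at h
    nlinarith
  have hs2 : s ≤ (0.775 ^ 2 + 1 - q ^ 2) / 1.55 := by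
    rw [le_div_iff₀ (by norm_num)]
    nlinarith [sq_nonneg (s - 0.775)]
  -- linear in w
  set Wc : ℝ := 1.5 * q ^ 3 - 0.702 * q * (1 + q) ^ 2 + 1.404 * (3 / 160) * q * (1 + q) * s with hWc
  have hWc0 : Wc ≤ 0 := by
    have h1 : q * (1 + q) * s ≤ q * (1 + q) * 0.87 :=
      mul_le_mul_of_nonneg_left hs1 (by nlinarith)
    have h2 : 1.5 * q ^ 2 - 0.702 * (1 + q) ^ 2 + 1.404 * (3 / 160) * 0.87 * (1 + q) ≤ 0 := by
      nlinarith
    have h3 : q * (1.5 * q ^ 2 - 0.702 * (1 + q) ^ 2 + 1.404 * (3 / 160) * 0.87 * (1 + q)) ≤ 0 :=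
      mul_nonpos_of_nonneg_of_nonpos (by linarith) h2
    rw [hWc]; nlinarith
  set R1 : ℝ := 3 * q * (1 - q / 2 - 0.936 * (1 + q) * (3 / 4 - 3 / 160 * (1.73206 / 2))) with hR1
  have hR10 : R1 ≤ 0 := by
    rw [hR1]
    exact mul_nonpos_of_nonneg_of_nonpos (by linarith) (by nlinarith)
  set P0 : ℝ := 0.7776 * (1 + q) ^ 2 - 2.808 * q * (1 + q) * (3 / 160 - 3 / 320 * q) +
    1.73206 * (1.5 * q ^ 3 - 0.702 * q * (1 + q) ^ 2) with hP0
  have e1 : 3 * (q * s + q ^ 2 * (w / 2 * q - s / 2) - 0.936 * q * (1 + q) *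
      ((w / 2 - 3 / 160) * (q / 2 + w / 2 * s) + w / 4 + 3 / 160)) + 0.7776 * (1 + q) ^ 2 +
      (3 * 0.936 / 4) * q * (1 + q) * s * (w ^ 2 - 3) =
      P0 + s * R1 + (w - 1.73206) * Wc := by
    rw [hP0, hR1, hWc]; ring
  rw [e1]
  have h5 : 0 ≤ (w - 1.73206) * Wc := mul_nonneg_of_nonpos_of_nonpos (by linarith) hWc0
  have h6 : (0.775 ^ 2 + 1 - q ^ 2) / 1.55 * R1 ≤ s * R1 := mul_le_mul_of_nonpos_right hs2 hR10
  have h7 : 0 ≤ P0 + (0.775 ^ 2 + 1 - q ^ 2) / 1.55 * R1 := by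
    rw [hP0, hR1]
    obtain ⟨x, hx⟩ : ∃ x : ℝ, q = 1936 / 3064 - x := ⟨1936 / 3064 - q, by ring⟩
    have hx0 : 0 ≤ x := by linarith
    have hx1 : x ≤ 0.14 := by linarith
    have e2 : 0.7776 * (1 + q) ^ 2 - 2.808 * q * (1 + q) * (3 / 160 - 3 / 320 * q) +
        1.73206 * (1.5 * q ^ 3 - 0.702 * q * (1 + q) ^ 2) + (0.775 ^ 2 + 1 - q ^ 2) / 1.55 *
        (3 * q * (1 - q / 2 - 0.936 * (1 + q) * (3 / 4 - 3 / 160 * (1.73206 / 2)))) =
        128225902045781511 / 85382085676928000000 + 622610382696423982563 / 278662159520000000000 * x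
        + 1212152434187533311 / 727577440000000000 * x ^ 2 - 1569106581123 / 237460000000 * x ^ 3 +
        7120807041 / 3100000000 * x ^ 4 := by
      rw [hx]; norm_num; ring
    rw [e2]
    have h8 : x ^ 3 ≤ 0.14 ^ 2 * x := by
      have h81 : x ^ 2 ≤ 0.14 ^ 2 := by nlinarith
      nlinarith
    have h9 : 0 ≤ x ^ 4 := by positivity
    have h10 : 0 ≤ x ^ 2 := by positivity
    nlinarith
  linarith

lemma aux_tan {r q s y x : ℝ} (hq : q ≠ 0) (hr : r = q * y) :
    r ^ 2 * (s / q + x / q ^ 2) = r * s * y + y ^ 2 * x := by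
  subst hr
  field_simp

theorem t_NL : S_NL := by
  intro r γ₁ γ₂ γ₃ η₁ η₂ η₃ hr1 hr2 hA
  obtain ⟨g1, g1', g2, g2', g3, g3', e1, e2, e3, hsum, c1, c2, c3⟩ := hA
  have hpi1 : 3.1415 < π := pi_gt_d4
  have hpi2 : π < 3.1416 := pi_lt_d4
  have hr0 : 0 < 1 / 2 - r := by linarith
  set q := r / (1 / 2 - r) with hq
  have hqr : q * (1 / 2 - r) = r := by rw [hq]; exact div_mul_cancel₀ r hr0.ne'
  have hq1 : 1 / 2 ≤ q := by rw [hq, le_div_iff₀ hr0]; linarith
  have hq2 : q ≤ 1936 / 3064 := by rw [hq, div_le_iff₀ hr0]; linarith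
  set θ := arccos q with hθ
  have hcθ : cos θ = q := cos_arccos (by linarith) (by linarith)
  have hθ1 : π / 4 ≤ θ := by
    have h1 : arccos (cos (π / 4)) ≤ arccos q := by
      apply arccos_le_arccos
      rw [cos_pi_div_four]
      have : (1.4 : ℝ) ≤ √2 := by
        apply le_sqrt_of_sq_le; norm_num
      linarith
    rwa [arccos_cos (by linarith) (by linarith)] at h1
  have hθ2 : θ ≤ π / 3 := by
    have h1 : arccos q ≤ arccos (cos (π / 3)) := by
      apply arccos_le_arccos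
      rw [cos_pi_div_three]; exact hq1
    rwa [arccos_cos (by linarith) (by linarith)] at h1
  have hγ : ∀ γ : ℝ, 0 < γ → γ < π / 2 → (1 / 2 - r) * cos γ ≤ r → θ ≤ γ := by
    intro γ h1 h2 h3
    have h4 : arccos q ≤ arccos (cos γ) := by
      apply arccos_le_arccos
      rw [hq, le_div_iff₀ hr0]; linarith
    rwa [arccos_cos (by linarith) (by linarith)] at h4
  have k1 := hγ γ₁ g1 g1' c1
  have k2 := hγ γ₂ g2 g2' c2
  have k3 := hγ γ₃ g3 g3' c3
  set s := sin θ with hs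
  have hs0 : 0 ≤ s := sin_nonneg_of_nonneg_of_le_pi (by linarith) (by linarith)
  have hsq : s ^ 2 = 1 - q ^ 2 := by
    have := sin_sq_add_cos_sq θ
    rw [hcθ] at this; linarith
  set w := √3 with hw
  have hww : w ^ 2 = 3 := sq_sqrt (by norm_num)
  have hw0 : 0 ≤ w := sqrt_nonneg _
  have hw1 : 1.73205 < w := by
    rw [hw, lt_sqrt (by norm_num)]; norm_num
  have hw2 : w < 1.73206 := by
    rw [hw, sqrt_lt' (by norm_num)]; norm_num
  set e := π / 3 - θ with he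
  have he0 : 0 ≤ e := by linarith
  have he1 : e ≤ 0.262 := by linarith
  have hse : sin e = w / 2 * q - s / 2 := by
    rw [he, sin_sub, sin_pi_div_three, cos_pi_div_three, hcθ]; ring
  have hce : cos e = q / 2 + w / 2 * s := by
    rw [he, cos_sub, sin_pi_div_three, cos_pi_div_three, hcθ]; ring
  have hse0 : 0 ≤ sin e := sin_nonneg_of_nonneg_of_le_pi he0 (by linarith)
  have hse1 : sin e ≤ 0.262 := le_trans (sin_le he0) he1
  have hce0 : 0.965 ≤ cos e := by
    have h1 := one_sub_sq_div_two_le_cos (x := e)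
    have h2 : e ^ 2 ≤ 0.262 ^ 2 := pow_le_pow_left₀ he0 he1 2
    linarith
  have hce1 : cos e ≤ 1 := cos_le_one e
  set A := r ^ 2 with hA
  set B := 0.468 * r * (w / 2 - 3 / 160) with hB
  have hA0 : 0 ≤ A := by rw [hA]; positivity
  have hB0 : 0.396 * r ≤ B := by
    have h1 : 0 ≤ r * (0.468 * (w / 2 - 3 / 160) - 0.396) :=
      mul_nonneg (by linarith) (by linarith)
    linarith
  have hB1 : B ≤ 0.397 * r := by
    have h1 : 0 ≤ r * (0.397 - 0.468 * (w / 2 - 3 / 160)) :=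
      mul_nonneg (by linarith) (by linarith)
    linarith
  have hB00 : 0 ≤ B := by linarith
  have hAr : A ≤ 0.1936 * r := by
    have h1 : 0 ≤ r * (0.1936 - r) := mul_nonneg (by linarith) (by linarith)
    linarith
  have hΛ0 : 0 ≤ A * cos e + B * sin e := by
    have : 0 ≤ A * cos e := mul_nonneg hA0 (by linarith)
    have : 0 ≤ B * sin e := mul_nonneg hB00 hse0
    linarith
  have hM : A * cos e + B * sin e ≤ B * cos e - A * sin e := by
    have h1 : A * (cos e + sin e) ≤ 0.1936 * r * 1.262 :=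
      mul_le_mul hAr (by linarith) (by linarith) (by linarith)
    have h2 : 0.396 * r * 0.703 ≤ B * (cos e - sin e) :=
      mul_le_mul hB0 (by linarith) (by norm_num) hB00
    linarith
  have hΛ1 : A * cos e + B * sin e ≤ (1 / 2 - r) ^ 2 := by
    have h1 : A * cos e ≤ A * 1 := mul_le_mul_of_nonneg_left hce1 hA0
    have h2 : B * sin e ≤ 0.397 * r * 0.262 := mul_le_mul hB1 hse1 hse0 (by linarith)
    linarith
  set Λ := A * cos e + B * sin e with hΛ
  -- tangents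
  have tanpart : ∀ γ : ℝ, θ ≤ γ → γ < π / 2 → r * s * (1 / 2 - r) + Λ * (γ - θ) ≤ r ^ 2 * tan γ := by
    intro γ h1 h2
    have h3 := tan_tangent (by linarith : (0 : ℝ) ≤ θ) h1 h2
    have hq0 : q ≠ 0 := by linarith
    have h4 : r ^ 2 * (tan θ + (γ - θ) / cos θ ^ 2) =
        r * s * (1 / 2 - r) + (1 / 2 - r) ^ 2 * (γ - θ) := by
      rw [tan_eq_sin_div_cos, hcθ, ← hs]
      exact aux_tan hq0 hqr.symm
    have h5 : Λ * (γ - θ) ≤ (1 / 2 - r) ^ 2 * (γ - θ) :=
      mul_le_mul_of_nonneg_right hΛ1 (by linarith)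
    have h6 := mul_le_mul_of_nonneg_left h3 hA0
    rw [hA] at h6
    linarith
  have etapart : ∀ η : ℝ, 0 ≤ η → η ≤ π / 4 → A * sin e - B * cos e + Λ * (η - e) -
      0.468 * r * (w / 4 + 3 / 160) ≤ r ^ 2 * sin η - 0.468 * r * phi η := by
    intro η h1 h2
    have h3 := trig_tangent (A := A) (B := B) (e := e) (η := η) hΛ0 hM (by linarith) (by linarith)
    have h4 : 0.7 ≤ cos η := by
      have h5 : cos (π / 4) ≤ cos η := cos_le_cos_of_nonneg_of_le_pi h1 (by linarith) h2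
      rw [cos_pi_div_four] at h5
      have : (1.4 : ℝ) ≤ √2 := by
        apply le_sqrt_of_sq_le; norm_num
      linarith
    have h6 : cos η ≤ 1 := cos_le_one η
    have h7 : phi η ≤ w / 4 + 3 / 160 + (w / 2 - 3 / 160) * cos η := by
      unfold phi
      rw [← hw]
      linarith [mul_nonneg (sub_nonneg.2 h4) (sub_nonneg.2 h6)]
    have h8 : 0.468 * r * phi η ≤ 0.468 * r * (w / 4 + 3 / 160 + (w / 2 - 3 / 160) * cos η) :=
      mul_le_mul_of_nonneg_left h7 (by linarith)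
    have h9 : 0.468 * r * (w / 4 + 3 / 160 + (w / 2 - 3 / 160) * cos η) =
        0.468 * r * (w / 4 + 3 / 160) + B * cos η := by rw [hB]; ring
    rw [← hA]
    linarith
  have t1 := tanpart γ₁ k1 g1'
  have t2 := tanpart γ₂ k2 g2'
  have t3 := tanpart γ₃ k3 g3'
  have u1 := etapart η₁ e1 (by linarith)
  have u2 := etapart η₂ e2 (by linarith)
  have u3 := etapart η₃ e3 (by linarith)
  have hL : Λ * (γ₁ - θ) + Λ * (γ₂ - θ) + Λ * (γ₃ - θ) + Λ * (η₁ - e) + Λ * (η₂ - e) +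
      Λ * (η₃ - e) = 0 := by
    have : Λ * (γ₁ - θ) + Λ * (γ₂ - θ) + Λ * (γ₃ - θ) + Λ * (η₁ - e) + Λ * (η₂ - e) +
      Λ * (η₃ - e) = Λ * (γ₁ + γ₂ + γ₃ + η₁ + η₂ + η₃ - π) := by rw [he]; ring
    rw [this, hsum]; ring
  have fin : 0.1566 ≤ 3 * (r * s * (1 / 2 - r) + (A * sin e - B * cos e) -
      0.468 * r * (w / 4 + 3 / 160)) + 0.351 := by
    have h1 := one_var hq1 hq2 hs0 hsq hw1 hw2
    rw [hww, sub_self, mul_zero, add_zero] at h1
    have hrq : r = q / (2 * (1 + q)) := by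
      have : (0 : ℝ) < 2 * (1 + q) := by linarith
      rw [eq_div_iff this.ne']
      linarith
    have hy : 1 / 2 - r = 1 / (2 * (1 + q)) := by
      have : (0 : ℝ) < 2 * (1 + q) := by linarith
      rw [hrq]
      field_simp
      ring
    have h2 : 4 * (1 + q) ^ 2 * (3 * (r * s * (1 / 2 - r) + (A * sin e - B * cos e) -
      0.468 * r * (w / 4 + 3 / 160)) + 0.351 - 0.1566) =
      3 * (q * s + q ^ 2 * (w / 2 * q - s / 2) - 0.936 * q * (1 + q) *
      ((w / 2 - 3 / 160) * (q / 2 + w / 2 * s) + w / 4 + 3 / 160)) + 0.7776 * (1 + q) ^ 2 := by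
      rw [hA, hB, hse, hce, hy, hrq]
      have : (1 + q) ≠ 0 := by linarith
      field_simp
      ring
    have h3 : 0 < 4 * (1 + q) ^ 2 := by positivity
    by_contra hcon
    push Not at hcon
    have h4 : 4 * (1 + q) ^ 2 * (3 * (r * s * (1 / 2 - r) + (A * sin e - B * cos e) -
      0.468 * r * (w / 4 + 3 / 160)) + 0.351 - 0.1566) < 0 :=
      mul_neg_of_pos_of_neg h3 (by linarith)
    rw [h2] at h4
    linarith
  linarith

end Pool.Agent.V7H8.LB
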